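import Pool.Agent.J4H48.HN.Stm

/-!
The pigeonhole: `S_CLOSE → S_CELL → S_CNT`.
-/

set_option autoImplicit false

open Finset Polynomial

namespace Pool.Agent.J4H48.HN

/-- two monic products with equal values at `0, ..., n - 1` are equal -/
theorem prod_eq {n : ℕ} (w w' : Fin n → ℂ)
    (h : ∀ t : Fin n, ∏ j, (((t : ℕ) : ℂ) - w j) = ∏ j, (((t : ℕ) : ℂ) - w' j)) :
    ∏ j, (X - C (w j)) = ∏ j, (X - C (w' j)) := by
  classical
  have hdeg : ∀ v : Fin n → ℂ, (∏ j, (X - C (v j)) : ℂ[X]).degree = n := by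
    intro v
    rw [Polynomial.degree_prod]
    simp
  have hmon : ∀ v : Fin n → ℂ, (∏ j, (X - C (v j)) : ℂ[X]).Monic := fun v =>
    monic_prod_of_monic _ _ fun j _ => monic_X_sub_C _
  have hcard : (Finset.univ.image fun t : Fin n => ((t : ℕ) : ℂ)).card = n := by
    rw [Finset.card_image_of_injective _ (fun a b hab => Fin.ext (by exact_mod_cast hab)),
      Finset.card_univ, Fintype.card_fin]
  apply Polynomial.eq_of_degree_sub_lt_of_eval_finset_eq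
    (Finset.univ.image fun t : Fin n => ((t : ℕ) : ℂ))
  · rw [hcard, ← hdeg w]
    exact Polynomial.degree_sub_lt ((hdeg w).trans (hdeg w').symm) (hmon w).ne_zero
      ((hmon w).leadingCoeff.trans (hmon w').leadingCoeff.symm)
  · intro x hx
    rw [mem_image] at hx
    obtain ⟨t, _, rfl⟩ := hx
    rw [eval_prod, eval_prod]
    simp only [eval_sub, eval_X, eval_C]
    exact h t

theorem root {n : ℕ} (w w' : Fin n → ℂ)
    (h : ∀ t : Fin n, ∏ j, (((t : ℕ) : ℂ) - w j) = ∏ j, (((t : ℕ) : ℂ) - w' j)) (j0 : Fin n) :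
    ∃ j1, w j0 = w' j1 := by
  have h1 := congrArg (Polynomial.eval (w j0)) (prod_eq w w' h)
  rw [eval_prod, eval_prod] at h1
  simp only [eval_sub, eval_X, eval_C] at h1
  have h2 : ∏ j, (w j0 - w j) = 0 := Finset.prod_eq_zero (mem_univ j0) (sub_self _)
  rw [h2] at h1
  obtain ⟨j1, _, hj1⟩ := Finset.prod_eq_zero_iff.1 h1.symm
  exact ⟨j1, sub_eq_zero.1 hj1⟩

theorem fib1 (G : ℂ[X]) (α β : ℤ) (d n : ℕ) (c : ℝ) (hn : 1 ≤ n) (V : Finset ℤ)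
    (W : ℤ → Fin n → Fin 3 → ℂ) (hW : ∀ γ ∈ V, Good G α β d n c γ (W γ))
    (hsame : ∀ γ ∈ V, ∀ γ' ∈ V, ∀ (t : Fin n) (i : Fin 3),
      ∏ j, (((t : ℕ) : ℂ) - W γ j i) = ∏ j, (((t : ℕ) : ℂ) - W γ' j i)) :
    V.card ≤ n ^ 3 := by
  classical
  rcases V.eq_empty_or_nonempty with h | ⟨γ₁, hγ₁⟩
  · rw [h]; simp
  haveI : Nonempty (Fin n) := ⟨⟨0, hn⟩⟩
  have hch : ∀ γ ∈ V, ∀ i : Fin 3, ∃ j1, W γ ⟨0, hn⟩ i = W γ₁ j1 i := fun γ hγ i =>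
    root (fun j => W γ j i) (fun j => W γ₁ j i) (fun t => hsame γ hγ γ₁ hγ₁ t i) ⟨0, hn⟩
  choose! f hf using hch
  have h1 : V.card ≤ (Finset.univ : Finset (Fin n × Fin n × Fin n)).card := by
    apply Finset.card_le_card_of_injOn (fun γ => (f γ 0, f γ 1, f γ 2)) (by simp)
    intro γ hγ γ' hγ' h
    rw [Finset.mem_coe] at hγ hγ'
    have e1 := (hW γ hγ).rel ⟨0, hn⟩
    have e2 := (hW γ' hγ').rel ⟨0, hn⟩
    have h' : f γ 0 = f γ' 0 ∧ f γ 1 = f γ' 1 ∧ f γ 2 = f γ' 2 := by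
      simpa [Prod.ext_iff] using h
    rw [hf γ hγ 0, hf γ hγ 1, hf γ hγ 2, h'.1, h'.2.1, h'.2.2] at e1
    rw [hf γ' hγ' 0, hf γ' hγ' 1, hf γ' hγ' 2] at e2
    have : (γ : ℂ) = γ' := by linear_combination e1 - e2
    exact_mod_cast this
  rw [Finset.card_univ, Fintype.card_prod, Fintype.card_prod, Fintype.card_fin] at h1
  calc V.card ≤ n * (n * n) := h1
    _ = n ^ 3 := by ring

theorem fib2 (G : ℂ[X]) (α β : ℤ) (d n : ℕ) (c : ℝ) (hn : 1 ≤ n) (V : Finset ℤ)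
    (W : ℤ → Fin n → Fin 3 → ℂ) (hW : ∀ γ ∈ V, Good G α β d n c γ (W γ)) (K : ℝ)
    (hK : ∀ γ ∈ V, ∀ γ' ∈ V, ∀ (t : Fin n) (i : Fin 3),
      ‖∏ j, (((t : ℕ) : ℂ) - W γ j i) - ∏ j, (((t : ℕ) : ℂ) - W γ' j i)‖ ≤ K) :
    V.card ≤ n ^ 3 * ((2 * ⌊K⌋₊ + 1) ^ 3) ^ n := by
  classical
  rcases V.eq_empty_or_nonempty with h | ⟨γ₀, hγ₀⟩
  · rw [h]; simp
  have hN : ∀ γ ∈ V, ∀ (t : Fin n) (i : Fin 3), ∃ N : ℤ,
      ∏ j, (((t : ℕ) : ℂ) - W γ j i) = (N : ℂ) := by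
    intro γ hγ t i
    obtain ⟨N, hN⟩ := (hW γ hγ).int ((t : ℕ) : ℤ) i
    refine ⟨N, ?_⟩
    rw [← hN]
    push_cast
    rfl
  choose! N hN using hN
  let B : ℤ → (Fin n → Fin 3 → ℤ) := fun γ t i => N γ t i - N γ₀ t i
  have himg : V.image B ⊆ Fintype.piFinset fun _ : Fin n => Fintype.piFinset fun _ : Fin 3 =>
      Icc (-(⌊K⌋₊ : ℤ)) ⌊K⌋₊ := by
    intro x hx
    rw [mem_image] at hx
    obtain ⟨γ, hγ, rfl⟩ := hx
    rw [Fintype.mem_piFinset]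
    intro t
    rw [Fintype.mem_piFinset]
    intro i
    have h1 := hK γ hγ γ₀ hγ₀ t i
    rw [hN γ hγ t i, hN γ₀ hγ₀ t i] at h1
    have h2 : ‖((N γ t i - N γ₀ t i : ℤ) : ℂ)‖ ≤ K := by
      rw [Int.cast_sub]
      exact h1
    rw [Complex.norm_intCast] at h2
    have h3 : |N γ t i - N γ₀ t i| ≤ (⌊K⌋₊ : ℤ) := by
      have h4 : (((|N γ t i - N γ₀ t i|).toNat : ℕ) : ℝ) ≤ K := by
        have h5 : ((|N γ t i - N γ₀ t i|).toNat : ℤ) = |N γ t i - N γ₀ t i| :=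
          Int.toNat_of_nonneg (abs_nonneg _)
        have h6 : (((|N γ t i - N γ₀ t i|).toNat : ℕ) : ℝ) = |((N γ t i - N γ₀ t i : ℤ) : ℝ)| := by
          rw [← Int.cast_abs, ← h5]
          push_cast
          rfl
        rw [h6]
        exact h2
      have h7 := Nat.le_floor h4
      omega
    rw [mem_Icc]
    exact abs_le.1 h3
  have hcard : (V.image B).card ≤ ((2 * ⌊K⌋₊ + 1) ^ 3) ^ n := by
    refine (card_le_card himg).trans (le_of_eq ?_)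
    rw [Fintype.card_piFinset_const, Fintype.card_piFinset_const, Int.card_Icc]
    congr 2
    omega
  have hfib : ∀ a ∈ V.image B, (V.filter fun γ => B γ = a).card ≤ n ^ 3 := by
    intro a _
    apply fib1 G α β d n c hn _ W
    · intro γ hγ
      exact hW γ (mem_filter.1 hγ).1
    · intro γ hγ γ' hγ' t i
      rw [mem_filter] at hγ hγ'
      rw [hN γ hγ.1 t i, hN γ' hγ'.1 t i]
      have h1 : B γ t i = B γ' t i := by rw [hγ.2, hγ'.2]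
      have h2 : N γ t i - N γ₀ t i = N γ' t i - N γ₀ t i := h1
      have h3 : N γ t i = N γ' t i := by omega
      rw [h3]
  calc V.card ≤ n ^ 3 * (V.image B).card := Finset.card_le_mul_card_image V (n ^ 3) hfib
    _ ≤ _ := Nat.mul_le_mul_left _ hcard

/-- the distance from the end of the interval next to `0` -/
noncomputable def ss (Γ : ℤ) (M : ℕ) (γ : ℤ) : ℤ :=
  if 0 < γ then γ - max Γ 0 else min (Γ + M) 0 - γ

theorem ss_facts (Γ : ℤ) (M : ℕ) (γ : ℤ) (h0 : γ ≠ 0) (h1 : Γ ≤ γ) (h2 : γ < Γ + M) :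
    0 ≤ ss Γ M γ ∧ ss Γ M γ ≤ |γ| ∧ ss Γ M γ ≤ M := by
  unfold ss
  split_ifs with h
  · rw [abs_of_pos h]
    refine ⟨?_, ?_, ?_⟩ <;> omega
  · have h3 : γ < 0 := by omega
    rw [abs_of_neg h3]
    refine ⟨?_, ?_, ?_⟩ <;> omega

theorem ss_diff (Γ : ℤ) (M : ℕ) (γ γ' : ℤ) (h : (0 < γ) ↔ (0 < γ')) :
    |γ - γ'| = |ss Γ M γ - ss Γ M γ'| := by
  unfold ss
  by_cases h1 : 0 < γ
  · rw [if_pos h1, if_pos (h.1 h1)]
    congr 1
    ring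
  · rw [if_neg h1, if_neg (fun h2 => h1 (h.2 h2)), abs_sub_comm]
    congr 1
    ring

theorem t_CNT (hclose : S_CLOSE) (hcell : S_CELL) : S_CNT := by
  classical
  intro G α β d n D c hn hnD hDd hd hG hGd hc
  have hd0 : (0 : ℝ) < d := by exact_mod_cast (by omega : 0 < d)
  have hD0 : (0 : ℝ) < D := by exact_mod_cast (by omega : 0 < D)
  obtain ⟨θ, hθ⟩ : ∃ θ : ℝ, θ = (D : ℝ) / d := ⟨_, rfl⟩
  have hθ0 : 0 < θ := by rw [hθ]; positivity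
  have hθ1 : θ < 1 := by
    rw [hθ, div_lt_one hd0]
    exact_mod_cast hDd
  obtain ⟨K1, hK1, hcell⟩ := hcell θ hθ0 hθ1
  obtain ⟨ε, R, K2, hε, hR, hK2, hclose⟩ :=
    hclose G α β d n D c K1 hn hnD hDd hd hG hGd hc (by linarith)
  rw [← hθ] at hclose ⊢
  obtain ⟨q, hq⟩ : ∃ q : ℕ, 2 / ε < q := exists_nat_gt _
  have hq0 : (0 : ℝ) < q := lt_of_le_of_lt (by positivity) hq
  obtain ⟨L2, hL2⟩ : ∃ L2 : ℕ, L2 = n ^ 3 * ((2 * ⌊K2⌋₊ + 1) ^ 3) ^ n := ⟨_, rfl⟩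
  obtain ⟨L1, hL1⟩ : ∃ L1 : ℕ, L1 = (((4 * q + 1) * (4 * q + 1)) ^ 3) ^ n := ⟨_, rfl⟩
  refine ⟨R, 4 * L1 * L2 + 1, hR, by
    have : (0 : ℝ) ≤ 4 * L1 * L2 := by positivity
    linarith, ?_⟩
  intro Γ M V hM hV
  have hW : ∀ γ ∈ V, ∃ W, Good G α β d n c γ W := fun γ hγ => (hV γ hγ).2.2.2
  choose! W hW using hW
  have hM1 : (1 : ℝ) ≤ M := by exact_mod_cast hM
  have hne : ∀ γ ∈ V, γ ≠ 0 := by
    intro γ hγ h
    have h1 := (hV γ hγ).2.2.1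
    rw [h, Int.cast_zero, abs_zero] at h1
    linarith
  let g : ℤ → ℝ := fun γ => |(γ : ℝ)| ^ (1 / (d : ℝ))
  have hg : ∀ γ ∈ V, 0 < g γ := by
    intro γ hγ
    apply Real.rpow_pos_of_pos
    rw [abs_pos]
    exact_mod_cast hne γ hγ
  let u : ℤ → Fin n → Fin 3 → ℂ := fun γ j i => W γ j i / ((g γ : ℝ) : ℂ)
  have hu2 : ∀ γ ∈ V, ∀ j i, ‖u γ j i‖ ≤ 2 := by
    intro γ hγ j i
    show ‖W γ j i / ((g γ : ℝ) : ℂ)‖ ≤ 2
    rw [norm_div, Complex.norm_real, Real.norm_of_nonneg (hg γ hγ).le, div_le_iff₀ (hg γ hγ)]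
    exact (hW γ hγ).hi j i
  let lab : ℤ → Fin n → Fin 3 → ℤ × ℤ := fun γ j i =>
    (⌊(q : ℝ) * (u γ j i).re⌋, ⌊(q : ℝ) * (u γ j i).im⌋)
  let A : ℤ → Bool × (ℤ × (Fin n → Fin 3 → ℤ × ℤ)) := fun γ =>
    (decide (0 < γ), (⌊((ss Γ M γ : ℤ) : ℝ) ^ θ⌋, lab γ))
  have hss : ∀ γ ∈ V, 0 ≤ ss Γ M γ ∧ ss Γ M γ ≤ |γ| ∧ ss Γ M γ ≤ M := fun γ hγ =>
    ss_facts Γ M γ (hne γ hγ) (hV γ hγ).1 (hV γ hγ).2.1
  -- the first codes
  have hfloor : ∀ x : ℝ, |x| ≤ 2 → ⌊(q : ℝ) * x⌋ ∈ Icc (-(2 * q : ℤ)) (2 * q) := by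
    intro x hx
    rw [abs_le] at hx
    rw [mem_Icc]
    constructor
    · rw [Int.le_floor]
      push_cast
      nlinarith [hx.1]
    · have h1 : ((⌊(q : ℝ) * x⌋ : ℤ) : ℝ) ≤ ((2 * q : ℤ) : ℝ) := by
        refine (Int.floor_le _).trans ?_
        push_cast
        nlinarith [hx.2]
      exact_mod_cast h1
  have himg : V.image A ⊆ (Finset.univ : Finset Bool) ×ˢ (Icc (0 : ℤ) ⌊(M : ℝ) ^ θ⌋ ×ˢ
      Fintype.piFinset fun _ : Fin n => Fintype.piFinset fun _ : Fin 3 =>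
        Icc (-(2 * q : ℤ)) (2 * q) ×ˢ Icc (-(2 * q : ℤ)) (2 * q)) := by
    intro x hx
    rw [mem_image] at hx
    obtain ⟨γ, hγ, rfl⟩ := hx
    obtain ⟨s1, s2, s3⟩ := hss γ hγ
    have s1' : (0 : ℝ) ≤ ((ss Γ M γ : ℤ) : ℝ) := by exact_mod_cast s1
    have s3' : ((ss Γ M γ : ℤ) : ℝ) ≤ M := by exact_mod_cast s3
    rw [mem_product, mem_product, mem_Icc, Fintype.mem_piFinset]
    refine ⟨mem_univ _, ⟨?_, ?_⟩, ?_⟩
    · exact Int.floor_nonneg.2 (Real.rpow_nonneg s1' _)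
    · exact Int.floor_le_floor (Real.rpow_le_rpow s1' s3' hθ0.le)
    · intro j
      rw [Fintype.mem_piFinset]
      intro i
      rw [mem_product]
      exact ⟨hfloor _ ((Complex.abs_re_le_norm _).trans (hu2 γ hγ j i)),
        hfloor _ ((Complex.abs_im_le_norm _).trans (hu2 γ hγ j i))⟩
  have hcard : ((V.image A).card : ℝ) ≤ 4 * L1 * (M : ℝ) ^ θ := by
    have h1 := card_le_card himg
    rw [card_product, card_product, Fintype.card_piFinset_const, Fintype.card_piFinset_const,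
      card_product, Int.card_Icc, Int.card_Icc, Finset.card_univ, Fintype.card_bool] at h1
    have e1 : (2 * (q : ℤ) + 1 - -(2 * q : ℤ)).toNat = 4 * q + 1 := by omega
    rw [e1, ← hL1] at h1
    have hMθ : (1 : ℝ) ≤ (M : ℝ) ^ θ := Real.one_le_rpow hM1 hθ0.le
    have h2 : (((⌊(M : ℝ) ^ θ⌋ + 1 - 0 : ℤ).toNat : ℕ) : ℝ) ≤ 2 * (M : ℝ) ^ θ := by
      have h3 : 0 ≤ ⌊(M : ℝ) ^ θ⌋ := Int.floor_nonneg.2 (by positivity)
      have h4 : (((⌊(M : ℝ) ^ θ⌋ + 1 - 0 : ℤ).toNat : ℕ) : ℝ) = (⌊(M : ℝ) ^ θ⌋ : ℝ) + 1 := by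
        have h5 : ((⌊(M : ℝ) ^ θ⌋ + 1 - 0 : ℤ).toNat : ℤ) = ⌊(M : ℝ) ^ θ⌋ + 1 := by omega
        exact_mod_cast h5
      rw [h4]
      have h6 := Int.floor_le ((M : ℝ) ^ θ)
      linarith
    calc ((V.image A).card : ℝ) ≤ ((2 * ((⌊(M : ℝ) ^ θ⌋ + 1 - 0 : ℤ).toNat * L1) : ℕ) : ℝ) := by
          exact_mod_cast h1
      _ = 2 * (((⌊(M : ℝ) ^ θ⌋ + 1 - 0 : ℤ).toNat : ℕ) : ℝ) * L1 := by
          push_cast
          ring
      _ ≤ 2 * (2 * (M : ℝ) ^ θ) * L1 := by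
          apply mul_le_mul_of_nonneg_right _ (Nat.cast_nonneg _)
          linarith
      _ = 4 * L1 * (M : ℝ) ^ θ := by ring
  -- the fibers
  have hclo : ∀ γ ∈ V, ∀ γ' ∈ V, A γ = A γ' → ∀ (t : Fin n) (i : Fin 3),
      ‖∏ j, (((t : ℕ) : ℂ) - W γ j i) - ∏ j, (((t : ℕ) : ℂ) - W γ' j i)‖ ≤ K2 := by
    intro γ hγ γ' hγ' hA
    have hA1 : decide (0 < γ) = decide (0 < γ') := congrArg Prod.fst hA
    have hA2 : ⌊((ss Γ M γ : ℤ) : ℝ) ^ θ⌋ = ⌊((ss Γ M γ' : ℤ) : ℝ) ^ θ⌋ :=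
      congrArg (fun p => p.2.1) hA
    have hA3 : lab γ = lab γ' := congrArg (fun p => p.2.2) hA
    have hsign : (0 < γ) ↔ (0 < γ') := by
      rw [decide_eq_decide] at hA1
      exact hA1
    obtain ⟨s1, s2, s3⟩ := hss γ hγ
    obtain ⟨s1', s2', s3'⟩ := hss γ' hγ'
    have r1 : (0 : ℝ) ≤ ((ss Γ M γ : ℤ) : ℝ) := by exact_mod_cast s1
    have r1' : (0 : ℝ) ≤ ((ss Γ M γ' : ℤ) : ℝ) := by exact_mod_cast s1'
    have r2 : ((ss Γ M γ : ℤ) : ℝ) ≤ |(γ : ℝ)| := by exact_mod_cast s2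
    have r2' : ((ss Γ M γ' : ℤ) : ℝ) ≤ |(γ' : ℝ)| := by exact_mod_cast s2'
    apply hclose γ γ' (W γ) (W γ') (hW γ hγ) (hW γ' hγ') (hV γ hγ).2.2.1 (hV γ' hγ').2.2.1
    · have h1 : |(γ : ℝ) - γ'| = |((ss Γ M γ : ℤ) : ℝ) - ((ss Γ M γ' : ℤ) : ℝ)| := by
        exact_mod_cast ss_diff Γ M γ γ' hsign
      rw [h1]
      rcases le_total ((ss Γ M γ : ℤ) : ℝ) ((ss Γ M γ' : ℤ) : ℝ) with h | h
      · rw [abs_sub_comm, abs_of_nonneg (by linarith)]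
        refine (hcell _ _ r1 h hA2).trans ?_
        apply mul_le_mul_of_nonneg_left _ (by linarith)
        exact Real.rpow_le_rpow r1' (r2'.trans (le_max_right _ _)) (by linarith)
      · rw [abs_of_nonneg (by linarith)]
        refine (hcell _ _ r1' h hA2.symm).trans ?_
        apply mul_le_mul_of_nonneg_left _ (by linarith)
        exact Real.rpow_le_rpow r1 (r2.trans (le_max_left _ _)) (by linarith)
    · intro j i
      have hl := congrFun (congrFun hA3 j) i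
      have hl1 : ⌊(q : ℝ) * (u γ j i).re⌋ = ⌊(q : ℝ) * (u γ' j i).re⌋ := congrArg Prod.fst hl
      have hl2 : ⌊(q : ℝ) * (u γ j i).im⌋ = ⌊(q : ℝ) * (u γ' j i).im⌋ := congrArg Prod.snd hl
      have key : ∀ x y : ℝ, ⌊(q : ℝ) * x⌋ = ⌊(q : ℝ) * y⌋ → |x - y| ≤ 1 / q := by
        intro x y hxy
        have h1 := Int.abs_sub_lt_one_of_floor_eq_floor hxy
        rw [← mul_sub, abs_mul, abs_of_pos hq0] at h1
        rw [le_div_iff₀ hq0]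
        linarith
      have h1 := key _ _ hl1
      have h2 := key _ _ hl2
      show ‖u γ j i - u γ' j i‖ ≤ ε
      refine (Complex.norm_le_abs_re_add_abs_im _).trans ?_
      rw [Complex.sub_re, Complex.sub_im]
      have h3 : 1 / (q : ℝ) + 1 / q ≤ ε := by
        rw [← add_div, div_le_iff₀ hq0]
        rw [div_lt_iff₀ hε] at hq
        linarith
      linarith
  have hfib : ∀ a ∈ V.image A, (V.filter fun γ => A γ = a).card ≤ L2 := by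
    intro a _
    rw [hL2]
    apply fib2 G α β d n c hn _ W
    · intro γ hγ
      exact hW γ (mem_filter.1 hγ).1
    · intro γ hγ γ' hγ'
      rw [mem_filter] at hγ hγ'
      exact hclo γ hγ.1 γ' hγ'.1 (hγ.2.trans hγ'.2.symm)
  have hfin := Finset.card_le_mul_card_image V L2 hfib
  have hMθ : (0 : ℝ) ≤ (M : ℝ) ^ θ := by positivity
  calc (V.card : ℝ) ≤ ((L2 * (V.image A).card : ℕ) : ℝ) := by exact_mod_cast hfin
    _ = L2 * ((V.image A).card : ℝ) := by push_cast; ring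
    _ ≤ L2 * (4 * L1 * (M : ℝ) ^ θ) := mul_le_mul_of_nonneg_left hcard (Nat.cast_nonneg _)
    _ = 4 * L1 * L2 * (M : ℝ) ^ θ := by ring
    _ ≤ (4 * L1 * L2 + 1) * (M : ℝ) ^ θ := by nlinarith

end Pool.Agent.J4H48.HN
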