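import Pool.Agent.J4H48.HN.Stm

/-!
From the data to the maps: `S_RED → S_CNT → S_MAIN`.
-/

set_option autoImplicit false

open Finset Polynomial

namespace Pool.Agent.J4H48.HN

/-- multiplication by a nonzero integer maps an interval into an interval -/
theorem mul_interval (a C : ℤ) (m : ℕ) (ha : a ≠ 0) :
    ∃ Γ : ℤ, ∀ k : ℤ, C ≤ k → k < C + m → Γ ≤ a * k ∧ a * k < Γ + (a.natAbs * m : ℕ) := by
  rcases lt_or_gt_of_ne ha with h | h
  · refine ⟨a * (C + m) + 1, fun k h1 h2 => ?_⟩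
    have e : ((a.natAbs * m : ℕ) : ℤ) = -(a * m) := by
      push_cast
      rw [abs_of_neg h]
      ring
    rw [e]
    constructor
    · nlinarith
    · nlinarith
  · refine ⟨a * C, fun k h1 h2 => ?_⟩
    have e : ((a.natAbs * m : ℕ) : ℤ) = a * m := by
      push_cast
      rw [abs_of_pos h]
    rw [e]
    constructor
    · nlinarith
    · nlinarith

theorem t_MAIN (hred : S_RED) (hcnt : S_CNT) : S_MAIN := by
  classical
  intro F b e D hd hb hD hDd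
  obtain ⟨R0, c, hR0, hc, G, α, β, hG, hGd, hred⟩ := hred F b e D hd hb
  obtain ⟨a, ha⟩ : ∃ a : ℤ, a = F.leadingCoeff ^ (F.natDegree - 1) := ⟨_, rfl⟩
  have hF : F ≠ 0 := by
    rintro rfl
    rw [Polynomial.natDegree_zero] at hd
    omega
  have ha0 : a ≠ 0 := by
    rw [ha]
    exact pow_ne_zero _ (by rwa [Ne, Polynomial.leadingCoeff_eq_zero])
  rw [← ha] at hred
  have hex : ∀ n : ℕ, ∃ R K : ℝ, 1 ≤ R ∧ 1 ≤ K ∧ (1 ≤ n → n ≤ D →
      ∀ (Γ : ℤ) (M : ℕ) (V : Finset ℤ), 1 ≤ M →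
        (∀ γ ∈ V, Γ ≤ γ ∧ γ < Γ + M ∧ R ≤ |(γ : ℝ)| ∧ ∃ W, Good G α β F.natDegree n c γ W) →
        (V.card : ℝ) ≤ K * (M : ℝ) ^ ((D : ℝ) / F.natDegree)) := by
    intro n
    by_cases h : 1 ≤ n ∧ n ≤ D
    · obtain ⟨R, K, h1, h2, h3⟩ := hcnt G α β F.natDegree n D c h.1 h.2 hDd hd hG hGd hc
      exact ⟨R, K, h1, h2, fun _ _ => h3⟩
    · exact ⟨1, 1, le_rfl, le_rfl, fun h1 h2 => absurd ⟨h1, h2⟩ h⟩
  choose R K hR hK hcount using hex
  obtain ⟨T, hT⟩ : ∃ T : ℝ, T = R0 + ∑ n ∈ Icc 1 D, R n := ⟨_, rfl⟩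
  have hRT : ∀ n ∈ Icc 1 D, R n ≤ T := by
    intro n hn
    rw [hT]
    have h1 := Finset.single_le_sum (f := R) (fun i _ => by linarith [hR i]) hn
    linarith
  have hR0T : R0 ≤ T := by
    rw [hT]
    have h1 : 0 ≤ ∑ n ∈ Icc 1 D, R n := Finset.sum_nonneg fun i _ => by linarith [hR i]
    linarith
  obtain ⟨t, ht⟩ : ∃ t : ℕ, T < t := exists_nat_gt T
  have hKs : 0 ≤ ∑ n ∈ Icc 1 D, K n := Finset.sum_nonneg fun i _ => by linarith [hK i]
  obtain ⟨θ, hθ⟩ : ∃ θ : ℝ, θ = (D : ℝ) / F.natDegree := ⟨_, rfl⟩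
  rw [← hθ] at hcount ⊢
  have hd0 : (0 : ℝ) < F.natDegree := by exact_mod_cast (by omega : 0 < F.natDegree)
  have hθ0 : 0 ≤ θ := by rw [hθ]; positivity
  have hθ1 : θ ≤ 1 := by
    rw [hθ, div_le_one hd0]
    exact_mod_cast hDd.le
  refine ⟨(2 * t + 1) + (a.natAbs : ℝ) * ∑ n ∈ Icc 1 D, K n, by
    have : (0 : ℝ) ≤ (a.natAbs : ℝ) * ∑ n ∈ Icc 1 D, K n := by positivity
    have h2 : (0 : ℝ) ≤ t := Nat.cast_nonneg _
    linarith, ?_⟩
  intro C m hm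
  have hm1 : (1 : ℝ) ≤ m := by exact_mod_cast hm
  have hmθ : (1 : ℝ) ≤ (m : ℝ) ^ θ := Real.one_le_rpow hm1 hθ0
  have hfin : {k : ℤ | C ≤ k ∧ k < C + m ∧ HasPer F b e k D}.Finite :=
    (Set.finite_Ico C (C + m)).subset (fun _ ht => ⟨ht.1, ht.2.1⟩)
  rw [Set.ncard_eq_toFinset_card _ hfin]
  obtain ⟨U, hU⟩ : ∃ U, U = hfin.toFinset := ⟨_, rfl⟩
  rw [← hU]
  have hUmem : ∀ k ∈ U, C ≤ k ∧ k < C + m ∧ HasPer F b e k D := by
    intro k hk
    rw [hU, Set.Finite.mem_toFinset] at hk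
    exact hk
  let P : ℕ → ℤ → Prop := fun n k => T ≤ |((a * k : ℤ) : ℝ)| ∧
    ∃ W, Good G α β F.natDegree n c (a * k) W
  have hcov : U ⊆ (Icc (-(t : ℤ)) t) ∪ (Icc 1 D).biUnion fun n => U.filter (P n) := by
    intro k hk
    rw [mem_union]
    by_cases h : T ≤ |((a * k : ℤ) : ℝ)|
    · right
      obtain ⟨n, h1, h2, h3⟩ := hred k (hR0T.trans h) (hUmem k hk).2.2
      rw [mem_biUnion]
      exact ⟨n, mem_Icc.2 ⟨h1, h2⟩, mem_filter.2 ⟨hk, h, h3⟩⟩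
    · left
      push Not at h
      have h1 : |((a * k : ℤ) : ℝ)| < t := h.trans ht
      have h2 : |a * k| < (t : ℤ) := by exact_mod_cast h1
      have h3 : |k| ≤ |a * k| := by
        rw [abs_mul]
        have h4 : 1 ≤ |a| := Int.one_le_abs ha0
        nlinarith [abs_nonneg k]
      rw [mem_Icc]
      exact abs_le.1 (by omega)
  obtain ⟨Γ, hΓ⟩ := mul_interval a C m ha0
  have hap : 1 ≤ a.natAbs := Int.natAbs_pos.2 ha0
  have hone : ∀ n ∈ Icc 1 D, ((U.filter (P n)).card : ℝ) ≤ K n * (a.natAbs : ℝ) * (m : ℝ) ^ θ := by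
    intro n hn
    have h1 := hcount n (mem_Icc.1 hn).1 (mem_Icc.1 hn).2 Γ (a.natAbs * m)
      ((U.filter (P n)).image fun k => a * k) (Nat.mul_pos hap hm) (by
        intro γ hγ
        rw [mem_image] at hγ
        obtain ⟨k, hk, rfl⟩ := hγ
        rw [mem_filter] at hk
        obtain ⟨g1, g2⟩ := hΓ k (hUmem k hk.1).1 (hUmem k hk.1).2.1
        exact ⟨g1, g2, (hRT n hn).trans hk.2.1, hk.2.2⟩)
    rw [Finset.card_image_of_injective _ (fun x y hxy => mul_left_cancel₀ ha0 hxy)] at h1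
    refine h1.trans ?_
    rw [Nat.cast_mul, Real.mul_rpow (Nat.cast_nonneg _) (Nat.cast_nonneg _), mul_assoc]
    apply mul_le_mul_of_nonneg_left _ (by linarith [hK n])
    apply mul_le_mul_of_nonneg_right _ (by positivity)
    calc (a.natAbs : ℝ) ^ θ ≤ (a.natAbs : ℝ) ^ (1 : ℝ) := by
          apply Real.rpow_le_rpow_of_exponent_le _ hθ1
          exact_mod_cast hap
      _ = a.natAbs := Real.rpow_one _
  have hIcc : (Icc (-(t : ℤ)) t).card = 2 * t + 1 := by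
    rw [Int.card_Icc]
    omega
  have h1 : (U.card : ℝ) ≤ (2 * t + 1) + ∑ n ∈ Icc 1 D, ((U.filter (P n)).card : ℝ) := by
    have h2 : U.card ≤ (2 * t + 1) + ∑ n ∈ Icc 1 D, (U.filter (P n)).card := by
      refine (card_le_card hcov).trans ((card_union_le _ _).trans ?_)
      rw [hIcc]
      exact Nat.add_le_add_left card_biUnion_le _
    exact_mod_cast h2
  calc (U.card : ℝ) ≤ (2 * t + 1) + ∑ n ∈ Icc 1 D, ((U.filter (P n)).card : ℝ) := h1
    _ ≤ (2 * t + 1) + ∑ n ∈ Icc 1 D, K n * (a.natAbs : ℝ) * (m : ℝ) ^ θ :=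
        add_le_add le_rfl (Finset.sum_le_sum hone)
    _ = (2 * t + 1) + (a.natAbs : ℝ) * (∑ n ∈ Icc 1 D, K n) * (m : ℝ) ^ θ := by
        rw [Finset.mul_sum, Finset.sum_mul]
        congr 1
        apply Finset.sum_congr rfl
        intro n _
        ring
    _ ≤ (2 * t + 1) * (m : ℝ) ^ θ + (a.natAbs : ℝ) * (∑ n ∈ Icc 1 D, K n) * (m : ℝ) ^ θ := by
        have h2 : (0 : ℝ) ≤ 2 * t + 1 := by positivity
        have h3 : (2 * (t : ℝ) + 1) ≤ (2 * t + 1) * (m : ℝ) ^ θ := le_mul_of_one_le_right h2 hmθ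
        linarith
    _ = _ := by ring

end Pool.Agent.J4H48.HN
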