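import Mathlib

/-!
Project HN: periodic points of Hénon maps over all number fields of degree `< d` (statements).
-/

set_option autoImplicit false

open Polynomial

namespace Pool.Agent.J4H48.HN

/-- `G` is injective with derivative of size `max g g' ^ (d - 1)` on pairs of points in nearly the
same direction (`G(w) - G(w') = (w - w') (∑ w^i w'^(d-1-i) + lower terms)`, and with `w = g u`,
`w' = g' u'`, `u' ≈ u` the sum is `u ^ (d - 1) ∑ g^i g'^(d-1-i) (1 + small)`) -/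
def S_PAIR : Prop := ∀ (G : ℂ[X]) (d : ℕ), 2 ≤ d → G.Monic → G.natDegree = d →
  ∃ ε R K : ℝ, 0 < ε ∧ 1 ≤ R ∧ 1 ≤ K ∧ ∀ (g g' : ℝ) (u u' : ℂ), R ≤ g → R ≤ g' →
    1 / 2 ≤ ‖u‖ → ‖u‖ ≤ 2 → 1 / 2 ≤ ‖u'‖ → ‖u'‖ ≤ 2 → ‖u - u'‖ ≤ ε →
    ‖(g : ℂ) * u - (g' : ℂ) * u'‖ * (max g g') ^ (d - 1) ≤
      K * ‖G.eval ((g : ℂ) * u) - G.eval ((g' : ℂ) * u')‖

/-- sizes of the members of an invariant set -/
def S_SIZE : Prop := ∀ (G : ℂ[X]) (d : ℕ), 2 ≤ d → G.Monic → G.natDegree = d →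
  ∀ A : ℝ, 0 ≤ A → ∃ R : ℝ, 1 ≤ R ∧ ∀ γ : ℝ, R ≤ |γ| → ∀ W : Finset ℂ,
    (∀ w ∈ W, ∃ u ∈ W, ∃ v ∈ W, ‖G.eval w + (γ : ℂ)‖ ≤ A * max ‖u‖ ‖v‖) →
    ∀ w ∈ W, 1 / 2 * |γ| ^ (1 / (d : ℝ)) ≤ ‖w‖ ∧ ‖w‖ ≤ 2 * |γ| ^ (1 / (d : ℝ)) ∧
      ‖G.eval w + (γ : ℂ)‖ ≤ 2 * A * |γ| ^ (1 / (d : ℝ))

/-- integrality (at each finite place look at the member of maximal valuation, then
`IsDedekindDomain.HeightOneSpectrum.mem_integers_of_valuation_le_one`; or the finitely generated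
module spanned by the monomials with all exponents `< d`) -/
def S_INT : Prop := ∀ (K : Type) [Field K] [NumberField K] (G : ℤ[X]), G.Monic →
  2 ≤ G.natDegree → ∀ (α β γ : ℤ) (W : Finset K),
    (∀ w ∈ W, ∃ u ∈ W, ∃ v ∈ W, aeval w G + (γ : K) = (α : K) * u + (β : K) * v) →
    ∀ w ∈ W, IsIntegral ℤ w

/-- values of the characteristic polynomial at integers are integers
(`Algebra.norm_eq_prod_embeddings`, `Algebra.isIntegral_norm`) -/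
def S_NORM : Prop := ∀ (K : Type) [Field K] [NumberField K] (x : K), IsIntegral ℤ x →
  ∀ t : ℤ, ∃ N : ℤ, ∏ σ : K →+* ℂ, ((t : ℂ) - σ x) = (N : ℂ)

/-- cells (Bernoulli, `K = 1 / θ`) -/
def S_CELL : Prop := ∀ θ : ℝ, 0 < θ → θ < 1 → ∃ K : ℝ, 1 ≤ K ∧ ∀ s s' : ℝ, 0 ≤ s → s ≤ s' →
  ⌊s ^ θ⌋ = ⌊s' ^ θ⌋ → s' - s ≤ K * s' ^ (1 - θ)

/-- the data of three consecutive members of a cycle, in all embeddings -/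
structure Good (G : ℂ[X]) (α β : ℤ) (d n : ℕ) (c : ℝ) (γ : ℤ) (W : Fin n → Fin 3 → ℂ) :
    Prop where
  lo : ∀ j i, 1 / 2 * |(γ : ℝ)| ^ (1 / (d : ℝ)) ≤ ‖W j i‖
  hi : ∀ j i, ‖W j i‖ ≤ 2 * |(γ : ℝ)| ^ (1 / (d : ℝ))
  near : ∀ j i, ‖G.eval (W j i) + (γ : ℂ)‖ ≤ c * |(γ : ℝ)| ^ (1 / (d : ℝ))
  int : ∀ (t : ℤ) (i : Fin 3), ∃ N : ℤ, ∏ j, ((t : ℂ) - W j i) = (N : ℂ)
  rel : ∀ j, G.eval (W j 1) + (γ : ℂ) = (α : ℂ) * W j 2 + (β : ℂ) * W j 0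

/-- two members of a cell with the same directions have nearly the same characteristic
polynomials -/
def S_CLOSE : Prop := ∀ (G : ℂ[X]) (α β : ℤ) (d n D : ℕ) (c c' : ℝ), 1 ≤ n → n ≤ D → D < d →
  2 ≤ d → G.Monic → G.natDegree = d → 0 ≤ c → 0 ≤ c' →
  ∃ ε R K : ℝ, 0 < ε ∧ 1 ≤ R ∧ 1 ≤ K ∧ ∀ (γ γ' : ℤ) (W W' : Fin n → Fin 3 → ℂ),
    Good G α β d n c γ W → Good G α β d n c γ' W' → R ≤ |(γ : ℝ)| → R ≤ |(γ' : ℝ)| →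
    |(γ : ℝ) - γ'| ≤ c' * (max |(γ : ℝ)| |(γ' : ℝ)|) ^ (1 - (D : ℝ) / d) →
    (∀ j i, ‖W j i / ((|(γ : ℝ)| ^ (1 / (d : ℝ)) : ℝ) : ℂ) -
      W' j i / ((|(γ' : ℝ)| ^ (1 / (d : ℝ)) : ℝ) : ℂ)‖ ≤ ε) →
    ∀ (t : Fin n) (i : Fin 3),
      ‖∏ j, (((t : ℕ) : ℂ) - W j i) - ∏ j, (((t : ℕ) : ℂ) - W' j i)‖ ≤ K

/-- the count, for the positive `γ` (pigeonhole: the cell `⌊s ^ (D / d)⌋`, `s = γ - max Γ 0`, the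
directions up to `ε`, the `3 n` integers of `S_CLOSE`, which determine the characteristic
polynomials, and `γ = α w₂ + β w₀ - G(w₁)` for roots of these) -/
def S_CNT : Prop := ∀ (G : ℂ[X]) (α β : ℤ) (d n D : ℕ) (c : ℝ), 1 ≤ n → n ≤ D → D < d →
  2 ≤ d → G.Monic → G.natDegree = d → 0 ≤ c → ∃ R K : ℝ, 1 ≤ R ∧ 1 ≤ K ∧
  ∀ (Γ : ℤ) (M : ℕ) (V : Finset ℤ), 1 ≤ M →
    (∀ γ ∈ V, Γ ≤ γ ∧ γ < Γ + M ∧ R ≤ |(γ : ℝ)| ∧ ∃ W, Good G α β d n c γ W) →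
    (V.card : ℝ) ≤ K * (M : ℝ) ^ ((D : ℝ) / d)

/-- the Hénon map `(x, y) ↦ (y, (F(y) + c - e x) / b)` over `ℂ` -/
noncomputable def henon (F : ℤ[X]) (b e c : ℤ) (P : ℂ × ℂ) : ℂ × ℂ :=
  (P.2, (aeval P.2 F + (c : ℂ) - (e : ℂ) * P.1) / (b : ℂ))

/-- it has a periodic point with coordinates in a number field of degree at most `D` -/
def HasPer (F : ℤ[X]) (b e c : ℤ) (D : ℕ) : Prop :=
  ∃ L : IntermediateField ℚ ℂ, FiniteDimensional ℚ L ∧ Module.finrank ℚ L ≤ D ∧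
    ∃ P : ℂ × ℂ, P.1 ∈ L ∧ P.2 ∈ L ∧ ∃ n : ℕ, 1 ≤ n ∧ (henon F b e c)^[n] P = P

/-- the exponent `D / d` is best possible (`y = k ^ (1 / D)`, `x = y`, `c = - k ^ (d / D)`) -/
def S_SHARP : Prop := ∀ D q : ℕ, 1 ≤ D → 1 ≤ q → 2 ≤ D * q → ∀ k : ℕ,
  k ≤ {c : ℤ | 1 - (k : ℤ) ^ q ≤ c ∧ c < 1 - (k : ℤ) ^ q + (k ^ q : ℕ) ∧
    HasPer (X ^ (D * q)) 1 (-1) c D}.ncard

/-- from the maps to the data -/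
def S_RED : Prop := ∀ (F : ℤ[X]) (b e : ℤ) (D : ℕ), 2 ≤ F.natDegree → b ≠ 0 →
  ∃ R c : ℝ, 1 ≤ R ∧ 0 ≤ c ∧ ∃ (G : ℂ[X]) (α β : ℤ), G.Monic ∧ G.natDegree = F.natDegree ∧
    ∀ k : ℤ, R ≤ |((F.leadingCoeff ^ (F.natDegree - 1) * k : ℤ) : ℝ)| → HasPer F b e k D →
      ∃ n : ℕ, 1 ≤ n ∧ n ≤ D ∧ ∃ W, Good G α β F.natDegree n c
        (F.leadingCoeff ^ (F.natDegree - 1) * k) W

/-- the count -/
def S_MAIN : Prop := ∀ (F : ℤ[X]) (b e : ℤ) (D : ℕ), 2 ≤ F.natDegree → b ≠ 0 →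
  1 ≤ D → D < F.natDegree → ∃ K : ℝ, 1 ≤ K ∧ ∀ (C : ℤ) (m : ℕ), 1 ≤ m →
    (({k : ℤ | C ≤ k ∧ k < C + m ∧ HasPer F b e k D}.ncard : ℕ) : ℝ) ≤
      K * (m : ℝ) ^ ((D : ℝ) / F.natDegree)

end Pool.Agent.J4H48.HN
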